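import Pool.Agent.H76.PS.Defs

/-!
# Project PS, job A3: the transfer lemma
-/

set_option autoImplicit false

namespace Pool.Agent.K7.H67.PS

open Pool.Agent.H76.PS

section

variable {G : Type} [Group G] [TopologicalSpace G] [IsTopologicalGroup G] {Q : Subgroup G}

lemma z2 (x : ZMod 2) : x + x = 0 := CharTwo.add_self_eq_zero x

/-- gluing of locally constant functions on `Q` and its complement -/
lemma ite_lc {Y : Type} (hQ : IsOpen (Q : Set G)) [DecidablePred (· ∈ Q)] {f g : G → Y} (hf : IsLocallyConstant f)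
    (hg : IsLocallyConstant g) : IsLocallyConstant (fun x => if x ∈ Q then f x else g x) := by
  rw [IsLocallyConstant.iff_exists_open] at *
  intro x
  by_cases hx : x ∈ Q
  · obtain ⟨U, hU, hxU, h⟩ := hf x
    refine ⟨U ∩ Q, hU.inter hQ, ⟨hxU, hx⟩, fun y hy => ?_⟩
    have hyQ : y ∈ Q := hy.2
    simp only [hx, hyQ, if_true]
    exact h y hy.1
  · obtain ⟨U, hU, hxU, h⟩ := hg x
    have hc : IsClosed (Q : Set G) := Subgroup.isClosed_of_isOpen Q hQ
    refine ⟨U ∩ (Q : Set G)ᶜ, hU.inter hc.isOpen_compl, ⟨hxU, hx⟩, fun y hy => ?_⟩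
    have hyQ : y ∉ Q := hy.2
    simp only [hx, hyQ, if_false]
    exact h y hy.1

/-- a locally constant function on `Q`, extended by a constant -/
lemma ext_lc (hQ : IsOpen (Q : Set G)) {b : Q → ZMod 2} (hb : IsLocallyConstant b) :
    ∃ f : G → ZMod 2, IsLocallyConstant f ∧ ∀ q : Q, f q = b q := by
  classical
  refine ⟨fun g => if h : g ∈ Q then b ⟨g, h⟩ else 0, ?_, fun q => by simp⟩
  rw [IsLocallyConstant.iff_exists_open] at *
  intro x
  by_cases hx : x ∈ Q
  · obtain ⟨U, hU, hxU, h⟩ := hb ⟨x, hx⟩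
    obtain ⟨V, hV, rfl⟩ := isOpen_induced_iff.1 hU
    refine ⟨V ∩ Q, hV.inter hQ, ⟨hxU, hx⟩, fun y hy => ?_⟩
    have hyQ : y ∈ Q := hy.2
    simp only [hx, hyQ, dif_pos]
    exact h ⟨y, hyQ⟩ hy.1
  · have hc : IsClosed (Q : Set G) := Subgroup.isClosed_of_isOpen Q hQ
    refine ⟨(Q : Set G)ᶜ, hc.isOpen_compl, hx, fun y hy => ?_⟩
    have hyQ : y ∉ Q := hy
    simp only [hx, hyQ, dif_neg, not_false_iff]

lemma bt_lc (hQ : IsOpen (Q : Set G)) (h2 : Q.index = 2) {t : G} (ht : t ∉ Q) {b : Q → ZMod 2} (hb : IsLocallyConstant b) :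
    IsLocallyConstant (bt Q t b) := by
  classical
  obtain ⟨f, hf, hfb⟩ := ext_lc hQ hb
  have h : bt Q t b = fun x => if x ∈ Q then f x else f (x * t⁻¹) := by
    funext x
    unfold bt
    by_cases hx : x ∈ Q
    · simp only [hx, dif_pos, if_true]
      exact (hfb ⟨x, hx⟩).symm
    · have hx' : x * t⁻¹ ∈ Q := by
        rw [Subgroup.mul_mem_iff_of_index_two h2]
        simp [hx, ht]
      simp only [hx, hx', dif_pos, dif_neg, if_false, not_false_iff]
      exact (hfb ⟨x * t⁻¹, hx'⟩).symm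
  rw [h]
  exact ite_lc hQ hf (hf.comp_continuous (by fun_prop))

lemma bt_mem {t : G} {b : Q → ZMod 2} {q : G} (hq : q ∈ Q) : bt Q t b q = b ⟨q, hq⟩ := by
  unfold bt
  simp only [hq, dif_pos]

lemma bt_mul_mem {t : G} {b : Q → ZMod 2} (ht : t ∉ Q) {q : G} (hq : q ∈ Q) : bt Q t b (q * t) = b ⟨q, hq⟩ := by
  unfold bt
  have h1 : q * t ∉ Q := fun h => ht ((Subgroup.mul_mem_cancel_left Q hq).1 h)
  have h2 : q * t * t⁻¹ ∈ Q := by rwa [mul_inv_cancel_right]
  simp only [h1, h2, dif_pos, dif_neg, not_false_iff]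
  congr 1
  exact Subtype.ext (mul_inv_cancel_right q t)

/-- every element is in `Q` or in `Q t` -/
lemma split (h2 : Q.index = 2) {t : G} (ht : t ∉ Q) (g : G) : g ∈ Q ∨ ∃ q ∈ Q, g = q * t := by
  by_cases hg : g ∈ Q
  · exact Or.inl hg
  · refine Or.inr ⟨g * t⁻¹, ?_, by group⟩
    rw [Subgroup.mul_mem_iff_of_index_two h2]
    simp [hg, ht]

/-- the function `β` of a character is additive for multiplication by `Q` from the left -/
lemma bt_add (h2 : Q.index = 2) {t : G} (ht : t ∉ Q) {b : Q → ZMod 2} (hb : ∀ x y, b (x * y) = b x + b y) {q : G} (hq : q ∈ Q)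
    (g : G) : bt Q t b (q * g) = bt Q t b q + bt Q t b g := by
  rcases split h2 ht g with hg | ⟨r, hr, rfl⟩
  · rw [bt_mem (Q.mul_mem hq hg), bt_mem hq, bt_mem hg, ← hb]
    rfl
  · rw [← mul_assoc, bt_mul_mem ht (Q.mul_mem hq hr), bt_mem hq, bt_mul_mem ht hr, ← hb]
    rfl

/-- the corestriction is a character -/
lemma cor_add (h2 : Q.index = 2) {t : G} (ht : t ∉ Q) {b : Q → ZMod 2} (hb : ∀ x y, b (x * y) = b x + b y) (g h : G) :
    cor Q t b (g * h) = cor Q t b g + cor Q t b h := by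
  have hn : Q.Normal := Subgroup.normal_of_index_eq_two h2
  have hbt := fun {q : G} (hq : q ∈ Q) (g : G) => bt_add h2 ht hb hq g
  have htq : ∀ {q : G}, q ∈ Q → t * q * t⁻¹ ∈ Q := fun hq => hn.conj_mem _ hq t
  have ht1 : bt Q t b t = 0 := by
    have h0 : b 1 = 0 := by
      have := hb 1 1
      rw [mul_one] at this
      simpa using this
    have := bt_mul_mem (b := b) ht Q.one_mem
    rw [one_mul] at this
    rw [this]
    exact h0
  have htt : t * t ∈ Q := by
    rw [Subgroup.mul_mem_iff_of_index_two h2]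
  -- multiplication by `Q`
  have hq : ∀ {q : G}, q ∈ Q → ∀ g, cor Q t b (q * g) = cor Q t b q + cor Q t b g := by
    intro q hq g
    unfold cor
    have e1 : t * (q * g) = (t * q * t⁻¹) * (t * g) := by group
    have e2 : t * q = (t * q * t⁻¹) * t := by group
    rw [e1, hbt (htq hq), hbt hq]
    conv_rhs => rw [e2, hbt (htq hq), ht1]
    ring
  have hT : ∀ g, cor Q t b (t * g) = cor Q t b t + cor Q t b g := by
    intro g
    unfold cor
    have e1 : t * (t * g) = (t * t) * g := by group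
    rw [e1, hbt htt, ht1]
    ring
  rcases split h2 ht g with hg | ⟨r, hr, rfl⟩
  · exact hq hg h
  · rw [mul_assoc, hq hr, hT, hq hr t]
    ring

/-- Job A3 for one group -/
theorem a3 (hQ : IsOpen (Q : Set G)) (h2 : Q.index = 2) {t : G} (ht : t ∉ Q) {e : G → G → ZMod 2} (he : e ∈ Z2 G)
    {ψ : G → ZMod 2} (hψ : ψ ∈ HS G) {b : Q → ZMod 2} (hb : b ∈ HS Q)
    (hB : rs Q e + cup (fun q : Q => ψ q) b ∈ B2 Q) : cup ψ (cor Q t b) ∈ B2 G := by
  classical
  obtain ⟨hψ1, hψ2⟩ := hψ
  obtain ⟨hb1, hb2⟩ := hb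
  obtain ⟨he1, he2⟩ := he
  obtain ⟨a, ha1, ha2⟩ := hB
  have hbt := fun {q : G} (hq : q ∈ Q) (g : G) => bt_add h2 ht hb2 hq g
  -- the function `E`
  obtain ⟨E, hE⟩ : ∃ E : G → G → ZMod 2, ∀ g h, E g h = e g h + ψ g * (bt Q t b (g * h) + bt Q t b g) := ⟨_, fun _ _ => rfl⟩
  -- the function `α`
  obtain ⟨α, hα⟩ : ∃ α : G → ZMod 2, ∀ g, α g = bt Q t a g + if g ∈ Q then 0 else E (g * t⁻¹) t := ⟨_, fun _ => rfl⟩
  have hαQ : ∀ {q : G} (hq : q ∈ Q), α q = a ⟨q, hq⟩ := by
    intro q hq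
    rw [hα, bt_mem hq, if_pos hq, add_zero]
  have hαT : ∀ {q : G} (hq : q ∈ Q), α (q * t) = E q t + a ⟨q, hq⟩ := by
    intro q hq
    have h1 : q * t ∉ Q := fun h => ht ((Subgroup.mul_mem_cancel_left Q hq).1 h)
    rw [hα, bt_mul_mem ht hq, if_neg h1, mul_inv_cancel_right, add_comm]
  -- `E` on `Q × Q`
  have hEQ : ∀ {q r : G} (hq : q ∈ Q) (hr : r ∈ Q), E q r = α q + α r + α (q * r) := by
    intro q r hq hr
    have h := ha2 ⟨q, hq⟩ ⟨r, hr⟩
    have h' : e q r + ψ q * b ⟨r, hr⟩ = a ⟨q, hq⟩ + a ⟨r, hr⟩ + a (⟨q, hq⟩ * ⟨r, hr⟩) := h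
    rw [hαQ hq, hαQ hr, hαQ (Q.mul_mem hq hr), hE, hbt hq, bt_mem hq, bt_mem hr]
    have e1 : (⟨q * r, Q.mul_mem hq hr⟩ : Q) = ⟨q, hq⟩ * ⟨r, hr⟩ := rfl
    rw [e1, ← h']
    have := z2 (b ⟨q, hq⟩)
    linear_combination ψ q * this
  -- the defect
  have hD : ∀ g h k : G, E h k + E (g * h) k + E g (h * k) + E g h =
      ψ h * (bt Q t b (h * k) + bt Q t b h + bt Q t b (g * h * k) + bt Q t b (g * h)) := by
    intro g h k
    have h1 := he2 g h k
    rw [hE, hE, hE, hE, hψ2, ← mul_assoc g h k]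
    have z1 := z2 (ψ g * bt Q t b (g * h * k))
    have z3 := z2 (ψ g * bt Q t b (g * h))
    have z4 := z2 (ψ g * bt Q t b g)
    linear_combination h1 + z1 + z3 + z4
  -- the first formula
  have h1 : ∀ {q : G} (hq : q ∈ Q) (h : G), E q h = α q + α h + α (q * h) := by
    intro q hq h
    rcases split h2 ht h with hh | ⟨r, hr, rfl⟩
    · exact hEQ hq hh
    · have h3 := hD q r t
      rw [hbt hq, show q * r * t = q * (r * t) from mul_assoc q r t, hbt hq] at h3
      have h5 := hEQ hq hr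
      rw [hαQ hq, hαQ hr, hαQ (Q.mul_mem hq hr)] at h5
      have h6 : α (q * (r * t)) = E (q * r) t + a ⟨q * r, Q.mul_mem hq hr⟩ := by
        rw [← mul_assoc]; exact hαT (Q.mul_mem hq hr)
      rw [hαQ hq, hαT hr, h6]
      have z1 := z2 (ψ r * bt Q t b r)
      have z3 := z2 (ψ r * bt Q t b (r * t))
      have z4 := z2 (ψ r * bt Q t b q)
      have z5 := z2 (E r t)
      have z6 := z2 (E (q * r) t)
      have z7 := z2 (E q r)
      have z8 := z2 (a ⟨q, hq⟩)
      have z9 := z2 (a ⟨r, hr⟩)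
      have z10 := z2 (a ⟨q * r, Q.mul_mem hq hr⟩)
      linear_combination h3 - h5 + z1 + z3 + z4 - z5 - z6 - z8 - z9 - z10
  -- the functions `α_t` and `s`
  obtain ⟨αt, hαt⟩ : ∃ αt : G → ZMod 2, ∀ h, αt h = E t h + α (t * h) + α t := ⟨_, fun _ => rfl⟩
  have h3 : ∀ {q : G} (hq : q ∈ Q) (k : G), E (q * t) k = α (q * t) + α (q * t * k) + αt k := by
    intro q hq k
    have h4 := hD q t k
    rw [hbt hq, show q * t * k = q * (t * k) from mul_assoc q t k, hbt hq, h1 hq (t * k), h1 hq t] at h4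
    rw [hαt, show q * t * k = q * (t * k) from mul_assoc q t k]
    have z1 := z2 (ψ t * bt Q t b q)
    have z3 := z2 (ψ t * bt Q t b t)
    have z4 := z2 (ψ t * bt Q t b (t * k))
    have z5 := z2 (E t k)
    have z6 := z2 (α q)
    have z7 := z2 (α (t * k))
    have z8 := z2 (α t)
    have z9 := z2 (α (q * t))
    have z10 := z2 (α (q * (t * k)))
    linear_combination h4 + z1 + z3 + z4 - z5 - z6 - z7 - z8 - z9 - z10
  obtain ⟨s, hs⟩ : ∃ s : G → ZMod 2, ∀ g, s g = α g + αt g := ⟨_, fun _ => rfl⟩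
  -- `E h k + E (t h) k`
  have h5 : ∀ h k : G, E h k + E (t * h) k = α h + α (h * k) + α (t * h) + α (t * h * k) + s k := by
    intro h k
    have hn : Q.Normal := Subgroup.normal_of_index_eq_two h2
    rcases split h2 ht h with hh | ⟨r, hr, rfl⟩
    · have e1 : t * h = (t * h * t⁻¹) * t := by group
      have e2 := h3 (hn.conj_mem _ hh t) k
      rw [← e1] at e2
      rw [h1 hh k, e2, hs]
      ring
    · have hm : t * (r * t) ∈ Q := by
        have : r * t ∉ Q := fun h => ht ((Subgroup.mul_mem_cancel_left Q hr).1 h)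
        rw [Subgroup.mul_mem_iff_of_index_two h2]
        simp [ht, this]
      rw [h1 hm k, h3 hr k, hs]
      ring
  refine ⟨s, ?_, fun x y => ?_⟩
  · -- `s` is locally constant
    have hbtb := bt_lc hQ h2 ht hb1
    have hbta := bt_lc hQ h2 ht ha1
    have hEt : IsLocallyConstant (fun g => E t g) := by
      have : (fun g => E t g) = fun g => e t g + ψ t * (bt Q t b (t * g) + bt Q t b t) := by
        funext g; exact hE t g
      rw [this]
      have k1 : IsLocallyConstant (fun g : G => e t g) := he1.comp_continuous (f := fun g : G => (t, g)) (by fun_prop)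
      have k2 : IsLocallyConstant (fun g : G => bt Q t b (t * g)) := hbtb.comp_continuous (f := fun g : G => t * g) (by fun_prop)
      exact k1.add ((IsLocallyConstant.const (ψ t)).mul (k2.add (IsLocallyConstant.const _)))
    have hE2 : IsLocallyConstant (fun g => E (g * t⁻¹) t) := by
      have : (fun g => E (g * t⁻¹) t) = fun g => e (g * t⁻¹) t + ψ (g * t⁻¹) * (bt Q t b g + bt Q t b (g * t⁻¹)) := by
        funext g; rw [hE, inv_mul_cancel_right]
      rw [this]
      have k1 : IsLocallyConstant (fun g : G => e (g * t⁻¹) t) := he1.comp_continuous (f := fun g : G => (g * t⁻¹, t)) (by fun_prop)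
      have k2 : IsLocallyConstant (fun g : G => bt Q t b (g * t⁻¹)) := hbtb.comp_continuous (f := fun g : G => g * t⁻¹) (by fun_prop)
      have k3 : IsLocallyConstant (fun g : G => ψ (g * t⁻¹)) := hψ1.comp_continuous (f := fun g : G => g * t⁻¹) (by fun_prop)
      exact k1.add (k3.mul (hbtb.add k2))
    have hαlc : IsLocallyConstant α := by
      have : α = fun g => bt Q t a g + if g ∈ Q then (0 : ZMod 2) else E (g * t⁻¹) t := by
        funext g; exact hα g
      rw [this]
      exact hbta.add (ite_lc (f := fun _ => (0 : ZMod 2)) hQ (IsLocallyConstant.const 0) hE2)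
    have hslc : s = fun g => α g + (E t g + α (t * g) + α t) := by
      funext g; rw [hs, hαt]
    rw [hslc]
    have k1 : IsLocallyConstant (fun g : G => α (t * g)) := hαlc.comp_continuous (f := fun g : G => t * g) (by fun_prop)
    exact hαlc.add ((hEt.add k1).add (IsLocallyConstant.const _))
  · -- the coboundary
    have h6 := hD t x y
    rw [h5 x y] at h6
    have h7 := cor_add h2 ht hb2 x y
    have h8 : cup ψ (cor Q t b) x y = ψ x * cor Q t b y := rfl
    have h9 : cor Q t b y = cor Q t b (x * y) + cor Q t b x := by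
      rw [h7]
      have := z2 (cor Q t b x)
      linear_combination -this
    have h10 : cor Q t b (x * y) = bt Q t b (x * y) + bt Q t b (t * x * y) := by
      unfold cor; rw [mul_assoc]
    have h11 : cor Q t b x = bt Q t b x + bt Q t b (t * x) := rfl
    rw [h8, h9, h10, h11]
    have e1 : E t (x * y) = αt (x * y) + α (t * x * y) + α t := by
      rw [hαt, ← mul_assoc t x y]
      have z1 := z2 (α (t * x * y))
      have z3 := z2 (α t)
      linear_combination -z1 - z3
    have e2 : E t x = αt x + α (t * x) + α t := by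
      rw [hαt]
      have z1 := z2 (α (t * x))
      have z3 := z2 (α t)
      linear_combination -z1 - z3
    rw [e1, e2] at h6
    have hsx := hs x
    have hsxy := hs (x * y)
    have z1 := z2 (α (t * x * y))
    have z3 := z2 (α (t * x))
    have z4 := z2 (α t)
    rw [hsx, hsxy]
    linear_combination -h6 + z1 + z3 + z4

end

/-- **Job A3** -/
theorem stA3 : StA3 := by
  intro G _ _ _ Q t hQ h2 ht e he ψ hψ b hb hB
  exact a3 hQ h2 ht he hψ hb hB

end Pool.Agent.K7.H67.PS
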